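import Pool.Agent.Lib.MP_ea1188_al.KG.IfaceD

/-! # Modules PNORM, PSUB, QB, QFAC, MV of project KG; MP_ea1188_al, helper15. -/

set_option autoImplicit false

namespace KG.H15

open KG

/-! ## PNORM -/

/-- powers of elements of the base group. -/
lemma pow_base {A : Type} [Group A] (u v : A) (k : ℕ) :
    (⟨u, v, false⟩ : Wr A) ^ k = ⟨u ^ k, v ^ k, false⟩ := by
  induction k with
  | zero => ext <;> simp
  | succ k ih =>
    rw [pow_succ, ih]
    ext <;> simp [pow_succ]

/-- the square of an element lies in the base group. -/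
lemma sq_base {A : Type} [Group A] (x : Wr A) : ∃ u v : A, x ^ 2 = ⟨u, v, false⟩ := by
  refine ⟨(x ^ 2).l, (x ^ 2).r, ?_⟩
  ext
  · rfl
  · rfl
  · rw [pow_two]; simp

/-- the range of `Wr.base f` is a kernel if the range of `f` is normal. -/
lemma range_base {C A : Type} [Group C] [Group A] (f : C →* A) [hN : f.range.Normal] :
    (Wr.base f).range = (Wr.map (QuotientGroup.mk' f.range)).ker := by
  ext g
  rw [MonoidHom.mem_ker]
  constructor
  · rintro ⟨x, rfl⟩
    ext
    · show QuotientGroup.mk' f.range (f x.1) = 1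
      rw [QuotientGroup.mk'_apply, QuotientGroup.eq_one_iff]
      exact ⟨x.1, rfl⟩
    · show QuotientGroup.mk' f.range (f x.2) = 1
      rw [QuotientGroup.mk'_apply, QuotientGroup.eq_one_iff]
      exact ⟨x.2, rfl⟩
    · rfl
  · intro h
    have h1 : QuotientGroup.mk' f.range g.l = 1 := congrArg Wr.l h
    have h2 : QuotientGroup.mk' f.range g.r = 1 := congrArg Wr.r h
    have h3 : g.s = false := congrArg Wr.s h
    rw [QuotientGroup.mk'_apply, QuotientGroup.eq_one_iff] at h1 h2
    obtain ⟨x, hx⟩ := h1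
    obtain ⟨y, hy⟩ := h2
    exact ⟨(x, y), by ext <;> simp [hx, hy, h3]⟩

instance finite_Wr (A : Type) [Finite A] : Finite (Wr A) := by
  refine Finite.of_injective (fun g : Wr A => (g.l, g.r, g.s)) ?_
  intro g h hgh
  simp only [Prod.mk.injEq] at hgh
  ext
  · exact hgh.1
  · exact hgh.2.1
  · exact hgh.2.2 ▸ rfl

/-- the induction step. -/
lemma pnorm_step {C A : Type} [Group C] [Group A] (f : C →* A)
    (h : f.range.Normal ∧ f.range.FiniteIndex ∧ ∀ x : A, ∃ k : ℕ, x ^ (2 ^ k) ∈ f.range) :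
    (Wr.base f).range.Normal ∧ (Wr.base f).range.FiniteIndex ∧
      ∀ x : Wr A, ∃ k : ℕ, x ^ (2 ^ k) ∈ (Wr.base f).range := by
  obtain ⟨hN, hF, hP⟩ := h
  refine ⟨?_, ?_, ?_⟩
  · rw [range_base]; infer_instance
  · rw [range_base]
    haveI : Finite (A ⧸ f.range) := inferInstance
    exact Subgroup.finiteIndex_ker _
  · intro x
    obtain ⟨u, v, huv⟩ := sq_base x
    obtain ⟨k1, a, ha⟩ := hP u
    obtain ⟨k2, b, hb⟩ := hP v
    refine ⟨1 + (k1 + k2), (a ^ 2 ^ k2, b ^ 2 ^ k1), ?_⟩
    rw [pow_add 2 1, pow_one, pow_mul, huv, pow_base]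
    ext
    · show f (a ^ 2 ^ k2) = _
      rw [map_pow, ha, ← pow_mul, ← pow_add]
    · show f (b ^ 2 ^ k1) = _
      rw [map_pow, hb, ← pow_mul, ← pow_add, add_comm k2]
    · rfl

/-- [PNORM] -/
theorem pnorm (h : LNormS) : PNormS := by
  intro n
  induction n with
  | zero => exact h
  | succ n ih => exact pnorm_step (iPT n) ih

/-! ## PSUB -/

/-- [PSUB] -/
theorem psub (h1 : LFreeS) (h2 : LBrS) : PSubS := by
  intro n
  have key : (iPT n).range ≤ LL.map (psiN n) ∧ Function.Injective (iPT n) := by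
    induction n with
    | zero =>
      refine ⟨?_, h1⟩
      rintro _ ⟨x, rfl⟩
      exact ⟨jL x, ⟨x, rfl⟩, rfl⟩
    | succ n ih =>
      obtain ⟨ih1, ih2⟩ := ih
      refine ⟨?_, ?_⟩
      · rintro _ ⟨x, rfl⟩
        obtain ⟨u1, hu1, hx1⟩ := ih1 ⟨x.1, rfl⟩
        obtain ⟨u2, hu2, hx2⟩ := ih1 ⟨x.2, rfl⟩
        obtain ⟨y1, hy1, hy1'⟩ := (h2 u1 hu1).1
        obtain ⟨y2, hy2, hy2'⟩ := (h2 u2 hu2).2
        refine ⟨y1 * y2, mul_mem hy1 hy2, ?_⟩
        have h3 : psi (y1 * y2) = ⟨u1, u2, false⟩ := by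
          rw [map_mul, hy1', hy2']
          ext <;> simp
        show Wr.map (psiN n) (psi (y1 * y2)) = Wr.base (iPT n) x
        rw [h3]
        ext
        · exact hx1
        · exact hx2
        · rfl
      · intro x y hxy
        have h3 : iPT n x.1 = iPT n y.1 := congrArg Wr.l hxy
        have h4 : iPT n x.2 = iPT n y.2 := congrArg Wr.r hxy
        exact Prod.ext (ih2 h3) (ih2 h4)
  refine ⟨key.1.trans ?_, key.2⟩
  rintro _ ⟨x, _, rfl⟩
  exact ⟨x, rfl⟩

/-! ## QB -/

/-- [QB] -/
theorem qb : QBS := by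
  intro n
  induction n with
  | zero =>
    refine ⟨inferInstanceAs (Finite Unit), 0, ?_⟩
    show Nat.card Unit = 2 ^ 0
    simp
  | succ n ih =>
    obtain ⟨h1, m, hm⟩ := ih
    refine ⟨finite_Wr (QQ n), m + (m + 1), ?_⟩
    have e : QQ (n + 1) ≃ QQ n × QQ n × Bool :=
      { toFun := fun g => (Wr.l g, Wr.r g, Wr.s g)
        invFun := fun p => (⟨p.1, p.2.1, p.2.2⟩ : Wr (QQ n))
        left_inv := fun _ => rfl
        right_inv := fun _ => rfl }
    rw [Nat.card_congr e, Nat.card_prod, Nat.card_prod, hm]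
    simp [pow_add, pow_one]

/-! ## QFAC -/

lemma pi0_psi (w : Lam) (h : pi0 w = 1) :
    pi0 (psi w).l = 1 ∧ pi0 (psi w).r = 1 ∧ (psi w).s = false := by
  have h1 : Wr.act pi0 (psi w) = 1 := by
    have := DFunLike.congr_fun act_psi w
    rw [← h]
    exact this
  have hs : (psi w).s = false := by
    have h2 := DFunLike.congr_fun h1 [false]
    rw [Wr.act_cons] at h2
    have h3 := (List.cons.inj h2).1
    simpa using h3
  refine ⟨?_, ?_, hs⟩
  · ext1 v
    have h2 := DFunLike.congr_fun h1 (false :: v)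
    rw [Wr.act_cons, hs] at h2
    simpa using (List.cons.inj h2).2
  · ext1 v
    have h2 := DFunLike.congr_fun h1 (true :: v)
    rw [Wr.act_cons, hs] at h2
    simpa using (List.cons.inj h2).2

lemma qN_eq_one (n : ℕ) : ∀ w : Lam, pi0 w = 1 → qN n w = 1 := by
  induction n with
  | zero => intro w _; rfl
  | succ n ih =>
    intro w hw
    obtain ⟨h1, h2, h3⟩ := pi0_psi w hw
    show Wr.map (qN n) (psi w) = 1
    ext
    · exact ih _ h1
    · exact ih _ h2
    · exact h3

/-- [QFAC] -/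
theorem qfac : QFacS := by
  intro n
  have hmem : ∀ w : Lam, pi0 w ∈ Grig := fun w => by
    rw [← range_pi0]; exact ⟨w, rfl⟩
  let f : Lam →* Grig := pi0.codRestrict Grig hmem
  have hf : Function.Surjective f := by
    rintro ⟨x, hx⟩
    have hx' := hx
    rw [← range_pi0] at hx'
    obtain ⟨w, rfl⟩ := hx'
    exact ⟨w, rfl⟩
  have hker : f.ker ≤ (qN n).ker := by
    intro w hw
    rw [MonoidHom.mem_ker] at hw ⊢
    exact qN_eq_one n w (congrArg Subtype.val hw)
  refine ⟨f.liftOfSurjective hf ⟨qN n, hker⟩, fun w hw => ?_⟩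
  exact MonoidHom.liftOfRightInverse_comp_apply f _ (Function.rightInverse_surjInv hf)
    ⟨qN n, hker⟩ w

/-! ## MV -/

lemma mv_conj (n : ℕ) : ∀ c x : QQ n, mv n (c * x * c⁻¹) = mv n x := by
  induction n with
  | zero => intro c x; rfl
  | succ n ih =>
    intro c x
    change Wr (QQ n) at c
    change Wr (QQ n) at x
    show (if (c * x * c⁻¹).s then 2 ^ (n + 1) else mv n (c * x * c⁻¹).l + mv n (c * x * c⁻¹).r) =
      if x.s then 2 ^ (n + 1) else mv n x.l + mv n x.r
    rcases x with ⟨x1, x2, _ | _⟩ <;> rcases c with ⟨c1, c2, _ | _⟩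
    · simp [Wr.inv_def, ih]
    · simp [Wr.inv_def, ih, add_comm]
    · simp
    · simp

/-- [MV] -/
theorem mvs : MvS := by
  intro n
  refine ⟨?_, ?_, ?_⟩
  · intro x y hxy
    obtain ⟨c, hc⟩ := isConj_iff.1 hxy
    rw [← hc, mv_conj]
  · induction n with
    | zero =>
      intro x
      exact ⟨fun _ => rfl, fun _ => rfl⟩
    | succ n ih =>
      intro x
      change Wr (QQ n) at x
      show (if x.s then 2 ^ (n + 1) else mv n x.l + mv n x.r) = 0 ↔ x = 1
      rcases x with ⟨x1, x2, _ | _⟩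
      · simp only [Bool.false_eq_true, if_false, Nat.add_eq_zero_iff, ih]
        constructor
        · rintro ⟨rfl, rfl⟩; rfl
        · intro h
          exact ⟨congrArg Wr.l h, congrArg Wr.r h⟩
      · simp only [if_true]
        constructor
        · intro h
          exact absurd h (by positivity)
        · intro h
          exact absurd (congrArg Wr.s h) (by simp)
  · induction n with
    | zero => intro w; simp [mv]
    | succ n ih =>
      intro w
      show 2 * (if (psi w).s then 2 ^ (n + 1) else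
          mv n (qN n (psi w).l) + mv n (qN n (psi w).r)) ≤
        if (psi w).s then 2 ^ (n + 1 + 1) else
          mv (n + 1) (qN (n + 1) (psi w).l) + mv (n + 1) (qN (n + 1) (psi w).r)
      have h1 := ih (psi w).l
      have h2 := ih (psi w).r
      split_ifs
      · rw [pow_succ 2 (n + 1)]; omega
      · omega

end KG.H15
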